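import Pool.Agent.Work.MP_64ea0f_cs.InterfaceG3

set_option autoImplicit false

/-! # BTH: thresholds of big vertices are minimal (cs_blocks, helper18) -/

namespace Pool.CS

theorem BTH_thm (hBAS : Stmt_BAS) (hVX1 : Stmt_VX1) (hNST : Stmt_NST) (hTHR : Stmt_THR)
    (hORT : Stmt_ORT) : Stmt_BTH := by
  intro D x hx δ hδ hbig φ hφ hφx hthr
  obtain ⟨hsym, hlin, -, -, -, hone, -, -, hnegR, -⟩ := hBAS D
  have hadd : ∀ (χ φ δ : D.V) (t : ℝ), D.B χ (φ + t • δ) = D.B χ φ + t * D.B χ δ := by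
    intro χ φ δ t
    have h := hlin 1 t φ δ χ
    rw [one_smul, one_mul] at h
    rw [hsym χ, h, hsym φ, hsym δ]
  have hneg : ∀ χ δ : D.V, D.B (-χ) δ = -D.B χ δ := by
    intro χ δ
    have h := hlin (-1) 0 χ χ δ
    rw [zero_smul, add_zero, neg_smul, one_smul, zero_mul, add_zero] at h
    rw [h]; ring
  have hnegr : ∀ χ δ : D.V, D.B χ (-δ) = -D.B χ δ := by
    intro χ δ
    rw [hsym, hneg, hsym]
  refine ⟨hφx, fun χ hχx hsub => ?_⟩
  by_contra hne
  have hχR : χ ∈ D.Rt := hx.sub hχx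
  have hφR : φ ∈ D.Rt := hφ.1
  have hB1 : 1 ≤ D.B χ φ := (hNST D χ hχR φ hφR).1 hsub hne
  obtain ⟨hc, hprog, -, -, -, hsubt, hthrx, hdich, -, -⟩ := hTHR D δ hδ φ hφ
  obtain ⟨ho1, -, -, -⟩ := hORT D
  obtain ⟨hFd, hFp, hδδ⟩ := ho1 δ hδ
  rcases lt_trichotomy (D.B χ δ) 0 with h | h | h
  · -- far translates
    obtain ⟨n, hn⟩ := exists_nat_gt ((D.B χ φ - 1) / (D.cst δ φ * (-D.B χ δ)))
    have hpos : 0 < D.cst δ φ * (-D.B χ δ) := mul_pos hc (by linarith)
    rw [div_lt_iff₀ hpos] at hn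
    set t : ℝ := (n : ℤ) * D.cst δ φ with ht
    have hR : φ + t • δ ∈ D.Rt := (hprog t).2 ⟨n, rfl⟩
    have ht0 : 0 ≤ t := by
      rw [ht]; push_cast; positivity
    have hs : D.Sub χ (φ + t • δ) := fun w hw => hsubt t ht0 hR w (hsub w hw)
    have hlt : D.B χ (φ + t • δ) < 1 := by
      rw [hadd, ht]
      push_cast
      nlinarith
    by_cases he : χ = φ + t • δ
    · rw [← he, hone χ hχR] at hlt
      exact lt_irrefl _ hlt
    · exact absurd ((hNST D χ hχR _ hR).1 hs he) (not_le.2 hlt)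
  · by_cases hF : χ ∈ D.Fd δ
    · rcases hdich χ hF with h1 | ⟨t, h1 | h1⟩
      · rw [hsym] at h1
        exact absurd (lt_of_abs_lt h1) (not_lt.2 hB1)
      · -- parallel
        have hR : φ + t • δ ∈ D.Rt := h1 ▸ hχR
        obtain ⟨i, hi⟩ := (hprog t).1 hR
        obtain ⟨j, hj⟩ := hthrx x hx
        have hj0 : j ≤ 0 := by
          rw [← hj 0]
          simpa using hφx
        have hj1 : ¬ j ≤ -1 := by
          rw [← hj (-1)]
          intro h2
          apply hthr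
          have e : φ + (((-1 : ℤ) : ℝ) * D.cst δ φ) • δ = φ - (D.cst δ φ) • δ := by
            push_cast
            rw [neg_one_mul, neg_smul, sub_eq_add_neg]
          rwa [e] at h2
        have hji : j ≤ i := by
          rw [← hj i, ← hi, ← h1]
          exact hχx
        have hi0 : 0 ≤ i := by omega
        have ht0 : 0 ≤ t := by
          rw [hi]
          exact mul_nonneg (by exact_mod_cast hi0) hc.le
        have hs : D.Sub φ χ := by
          rw [h1]
          exact hsubt t ht0 hR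
        exact hne ((hNST D χ hχR φ hφR).2.2.1 hsub hs)
      · have h2 : D.B χ φ = -1 := by
          rw [hsym, h1, hadd, hnegr, hone φ hφR, hFd φ hφ, mul_zero, add_zero]
        linarith
    · have h2 := hFp χ ⟨hχR, h, hF⟩ φ hφ
      linarith
  · have h1 : -χ ∈ x := hbig (-χ) (hnegR χ hχR) (by rw [hneg]; linarith)
    exact (hVX1 D).2.2.2.2.2.2.2.2.1 x hx χ hχx h1

end Pool.CS
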