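import Pool.Agent.Work.MP_64ea0f_cs.InterfaceF

set_option autoImplicit false

/-! # F3H: the axis (cs_blocks, helper18) -/

namespace Pool.CS
namespace F3H18

open Rd

variable {D : Rd} {H : Subgroup D.W}

theorem mem_lab (φ : D.V) : φ ∈ D.lab H φ := by
  refine ⟨1, H.one_mem, Or.inl ?_⟩
  rw [map_one]; rfl

theorem tau_diff {L : LS (D.lg H) D.X} (hL : D.IsFlip H L) (a : D.Lb H) (x : D.X) :
    ∃ φ : D.V, x.1 \ (L.τ a x).1 ⊆ {φ} := by
  by_cases h : ∃ φ, D.Mn x.1 φ ∧ φ ∈ a.1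
  · obtain ⟨φ, h1, h2⟩ := h
    refine ⟨φ, ?_⟩
    rw [(hL a x).1 φ h1 h2]
    rintro ψ ⟨h3, h4⟩
    by_contra h5
    exact h4 (Or.inr ⟨h3, h5⟩)
  · refine ⟨0, ?_⟩
    rw [(hL a x).2 (fun φ h1 h2 => h ⟨φ, h1, h2⟩)]
    simp

theorem len_le (hfin : ∀ x : D.X, ∀ y : D.X, (x.1 \ y.1).Finite) {L : LS (D.lg H) D.X}
    (hL : D.IsFlip H L) (l : List (D.Lb H)) :
    ∀ x : D.X, (x.1 \ (L.r x (wp (D.lg H) l)).1).ncard ≤ l.length := by
  induction l with
  | nil =>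
    intro x
    rw [wp_nil, LS.r_one]
    simp
  | cons a l ih =>
    intro x
    rw [LS.r_wp_cons]
    have h1 : x.1 \ (L.r (L.τ a x) (wp (D.lg H) l)).1 ⊆
        (x.1 \ (L.τ a x).1) ∪ ((L.τ a x).1 \ (L.r (L.τ a x) (wp (D.lg H) l)).1) := by
      rintro ψ ⟨h2, h3⟩
      by_cases h4 : ψ ∈ (L.τ a x).1
      · exact Or.inr ⟨h4, h3⟩
      · exact Or.inl ⟨h2, h4⟩
    refine (Set.ncard_le_ncard h1 ((hfin _ _).union (hfin _ _))).trans
      ((Set.ncard_union_le _ _).trans ?_)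
    obtain ⟨φ, hφ⟩ := tau_diff hL a x
    have h2 : (x.1 \ (L.τ a x).1).ncard ≤ 1 :=
      (Set.ncard_le_ncard hφ (Set.finite_singleton φ)).trans (Set.ncard_singleton φ).le
    have h3 := ih (L.τ a x)
    rw [List.length_cons]
    omega

theorem exists_word (hfin : ∀ x : D.X, ∀ y : D.X, (x.1 \ y.1).Finite ∧ (x.1 ⊆ y.1 → x.1 = y.1))
    (hVX2 : Stmt_VX2) (hVX4 : Stmt_VX4)
    {L : LS (D.lg H) D.X} (hL : D.IsFlip H L) {b : D.X} {κ : D.X → RC (D.lg H)}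
    {c : H →* RC (D.lg H)} (hD : D.Dev H L b κ c) (y : D.X) (n : ℕ) :
    ∀ x : D.X, (x.1 \ y.1).ncard = n →
      ∃ l : List (D.Lb H), l.length = n ∧ κ y = κ x * wp (D.lg H) l := by
  induction n with
  | zero =>
    intro x hx
    have h1 : x.1 \ y.1 = ∅ := (Set.ncard_eq_zero (hfin x y).1).1 hx
    have h2 : x = y := Subtype.ext ((hfin x y).2 (Set.sdiff_eq_empty.1 h1))
    exact ⟨[], rfl, by rw [wp_nil, mul_one, h2]⟩
  | succ n ih =>
    intro x hx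
    have h1 : (x.1 \ y.1).Nonempty := by
      rw [← Set.ncard_pos (hfin x y).1]; omega
    obtain ⟨φ, h2, h3⟩ := h1
    obtain ⟨ψ, h4, h5, _, h6⟩ := hVX4 D x.1 x.2 y.1 y.2 φ h2 h3
    have h7 : ψ ∈ D.Rt := x.2.sub h4.1
    let a : D.Lb H := ⟨D.lab H ψ, ψ, h7, rfl⟩
    have h8 : (L.τ a x).1 = D.fl x.1 ψ := (hL a x).1 ψ h4 (mem_lab ψ)
    have h9 : L.τ a x ≠ x := by
      intro h
      have := (hVX2 D x.1 x.2 ψ h4).2.2.2.1
      rw [← h8, h] at this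
      exact this rfl
    obtain ⟨l, hl1, hl2⟩ := ih (L.τ a x) (by rw [h8]; omega)
    refine ⟨a :: l, by rw [List.length_cons, hl1], ?_⟩
    rw [hl2, hD.step a x h9, wp_cons, mul_assoc]

theorem r_act (hLSX : Stmt_LSX) (hH : D.Deep H) {L : LS (D.lg H) D.X} (hL : D.IsFlip H L)
    (h : D.W) (hh : h ∈ H) (x y : D.X) (hxy : y.1 = D.act h x.1) (γ : RC (D.lg H)) :
    (L.r y γ).1 = D.act h (L.r x γ).1 := by
  induction γ using rac_induction_right with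
  | h1 => rw [LS.r_one, LS.r_one, hxy]
  | h2 a γ ih =>
    rw [LS.r_mul, LS.r_mul, LS.r_rg, LS.r_rg]
    exact (hLSX D H hH).2 L hL h hh a _ _ ih

theorem word_pow (w : List (D.Lb H)) (n : ℕ) :
    ∃ l : List (D.Lb H), wp (D.lg H) l = wp (D.lg H) w ^ n ∧ l.length = n * w.length := by
  induction n with
  | zero => exact ⟨[], by rw [wp_nil, pow_zero], by simp⟩
  | succ n ih =>
    obtain ⟨l, h1, h2⟩ := ih
    refine ⟨l ++ w, by rw [wp_append, h1, pow_succ], ?_⟩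
    rw [List.length_append, h2, Nat.succ_mul]

end F3H18

open F3H18 in
theorem f3h_thm : Stmt_BAS → Stmt_FINO → Stmt_NST → Stmt_VX1 → Stmt_VX2 → Stmt_VX3 → Stmt_VX4 →
    Stmt_LSX → Stmt_DEV → Stmt_F3H := by
  intro hBAS hFINO hNST hVX1 hVX2 _ hVX4 hLSX _
  intro D H hH L hL b κ c hD h a w hc hAx
  obtain ⟨vPs, vact, act1, actmul, mem_act, mem_act', _, _, noneg, up, fin3⟩ := hVX1 D
  obtain ⟨Bsymm, Blin, _, _, _, _, _, Rtact, Rtneg, _, _, rfact, _, _, rfinj, _⟩ := hBAS D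
  set x0 : D.X := L.r b a with hx0
  have hpow : ∀ n : ℕ, ((h ^ n : H) : D.W) = h.1 ^ n := fun n => rfl
  -- the powers of `h`
  have hcn : ∀ n : ℕ, c (h ^ n) = a * wp (D.lg H) w ^ n * a⁻¹ := by
    intro n
    rw [map_pow, hc, conj_pow]
  have hact : ∀ n : ℕ, (L.r x0 (wp (D.lg H) w ^ n)).1 = D.act (h.1 ^ n) x0.1 := by
    intro n
    let yb : D.X := ⟨D.act (h.1 ^ n) b.1, vact b.1 b.2 _⟩
    have h1 : κ yb = c (h ^ n) := by
      rw [hD.hol (h ^ n) b yb rfl, hD.one, mul_one]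
    have h2 := hD.path yb
    have h3 := r_act hLSX hH hL (h.1 ^ n) (H.pow_mem h.2 n) b yb rfl a
    rw [← h2, h1, hcn, ← LS.r_mul, inv_mul_cancel_right, LS.r_mul] at h3
    exact h3
  -- the distances
  have hfin : ∀ x : D.X, ∀ y : D.X, (x.1 \ y.1).Finite ∧ (x.1 ⊆ y.1 → x.1 = y.1) :=
    fun x y => ⟨(fin3 x.1 x.2 y.1 y.2).1, (fin3 x.1 x.2 y.1 y.2).2.2⟩
  have hdist : ∀ n : ℕ, (x0.1 \ D.act (h.1 ^ n) x0.1).ncard = n * w.length := by
    intro n
    apply le_antisymm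
    · obtain ⟨l, h1, h2⟩ := word_pow w n
      rw [← hact n, ← h1, ← h2]
      exact len_le (fun x y => (hfin x y).1) hL l x0
    · let y : D.X := ⟨D.act (h.1 ^ n) x0.1, vact x0.1 x0.2 _⟩
      obtain ⟨l, h1, h2⟩ := exists_word hfin hVX2 hVX4 hL hD y _ x0 rfl
      have h3 : κ y = c (h ^ n) * κ x0 := hD.hol (h ^ n) x0 y rfl
      have h4 : wp (D.lg H) l = ((κ x0)⁻¹ * a) * wp (D.lg H) w ^ n * ((κ x0)⁻¹ * a)⁻¹ := by
        have h5 : wp (D.lg H) l = (κ x0)⁻¹ * κ y := by rw [h2]; group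
        rw [h5, h3, hcn]
        group
      have h5 := hAx n _ l h4
      rw [h1] at h5
      exact h5
  -- the translates of the difference
  set d : Set D.V := x0.1 \ D.act h.1 x0.1 with hd
  have hdfin : d.Finite := (fin3 x0.1 x0.2 _ (vact x0.1 x0.2 h.1)).1
  have hdcard : d.ncard = w.length := by
    have := hdist 1
    rw [pow_one, one_mul] at this
    exact this
  have hU : ∀ n : ℕ, {α : D.V | ∃ i < n, α ∈ D.act (h.1 ^ i) d}.Finite ∧
      {α : D.V | ∃ i < n, α ∈ D.act (h.1 ^ i) d}.ncard ≤ n * w.length := by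
    intro n
    induction n with
    | zero =>
      have : {α : D.V | ∃ i < 0, α ∈ D.act (h.1 ^ i) d} = ∅ := by
        ext α; simp
      rw [this]; simp
    | succ n ih =>
      have h1 : {α : D.V | ∃ i < n + 1, α ∈ D.act (h.1 ^ i) d}
          = {α : D.V | ∃ i < n, α ∈ D.act (h.1 ^ i) d} ∪ D.act (h.1 ^ n) d := by
        ext α
        constructor
        · rintro ⟨i, h1, h2⟩
          rcases Nat.lt_succ_iff_lt_or_eq.1 h1 with h3 | h3
          · exact Or.inl ⟨i, h3, h2⟩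
          · rw [h3] at h2; exact Or.inr h2
        · rintro (⟨i, h1, h2⟩ | h1)
          · exact ⟨i, by omega, h2⟩
          · exact ⟨n, by omega, h1⟩
      rw [h1]
      have h2 : (D.act (h.1 ^ n) d).ncard ≤ w.length := by
        rw [← hdcard]; exact Set.ncard_image_le hdfin
      refine ⟨ih.1.union (hdfin.image _), (Set.ncard_union_le _ _).trans ?_⟩
      rw [Nat.succ_mul]
      exact add_le_add ih.2 h2
  have hsub : ∀ n : ℕ, x0.1 \ D.act (h.1 ^ n) x0.1 ⊆ {α : D.V | ∃ i < n, α ∈ D.act (h.1 ^ i) d} := by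
    classical
    rintro n α ⟨h1, h2⟩
    have hex : ∃ j, α ∉ D.act (h.1 ^ j) x0.1 := ⟨n, h2⟩
    set j := Nat.find hex with hj
    have hj1 : α ∉ D.act (h.1 ^ j) x0.1 := Nat.find_spec hex
    have hj2 : j ≤ n := Nat.find_min' hex h2
    have hj0 : j ≠ 0 := by
      intro h0
      rw [h0, pow_zero, act1] at hj1
      exact hj1 h1
    obtain ⟨i, hi⟩ : ∃ i, j = i + 1 := ⟨j - 1, by omega⟩
    have hi1 : α ∈ D.act (h.1 ^ i) x0.1 := by
      have := Nat.find_min hex (m := i) (by omega)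
      rw [not_not] at this
      exact this
    refine ⟨i, by omega, ?_⟩
    have h3 : D.ρ (h.1 ^ i)⁻¹ α ∈ x0.1 := (mem_act' _ _ _).1 hi1
    have h4 : D.ρ (h.1 ^ i)⁻¹ α ∉ D.act h.1 x0.1 := by
      intro h5
      apply hj1
      rw [hi, pow_succ, actmul, mem_act']
      exact h5
    rw [mem_act']
    exact ⟨h3, h4⟩
  have heq : ∀ n : ℕ, x0.1 \ D.act (h.1 ^ n) x0.1 = {α : D.V | ∃ i < n, α ∈ D.act (h.1 ^ i) d} := by
    intro n
    refine Set.eq_of_subset_of_ncard_le (hsub n) ?_ (hU n).1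
    rw [hdist n]
    exact (hU n).2
  intro α hα1 hα2
  have hαd : α ∈ d := ⟨hα1, hα2⟩
  have key : ∀ i n : ℕ, i < n → D.ρ (h.1 ^ i) α ∈ x0.1 ∧ D.ρ (h.1 ^ i) α ∉ D.act (h.1 ^ n) x0.1 := by
    intro i n hin
    have h1 : D.ρ (h.1 ^ i) α ∈ x0.1 \ D.act (h.1 ^ n) x0.1 := by
      rw [heq n]
      exact ⟨i, hin, (mem_act _ _ _).1 hαd⟩
    exact h1
  intro n hn
  have hαR : α ∈ D.Rt := x0.2.sub hα1
  set β := D.ρ (h.1 ^ n) α with hβ
  have hβR : β ∈ D.Rt := Rtact α hαR _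
  have k1 : β ∈ x0.1 := (key n (n + 1) (by omega)).1
  have k2 : α ∉ D.act (h.1 ^ n) x0.1 := by
    have := (key 0 n hn).2
    rw [pow_zero, map_one] at this
    exact this
  have k3 : β ∈ D.act (h.1 ^ n) x0.1 := (mem_act _ _ _).1 hα1
  have k4 : α ∉ D.act (h.1 ^ (2 * n)) x0.1 := by
    have := (key 0 (2 * n) (by omega)).2
    rw [pow_zero, map_one] at this
    exact this
  have k5 : β ∉ D.act (h.1 ^ (2 * n)) x0.1 := (key n (2 * n) (by omega)).2
  have hne : β ≠ α := fun h1 => k2 (h1 ▸ k3)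
  have v1 := vact x0.1 x0.2 (h.1 ^ n)
  have v2 := vact x0.1 x0.2 (h.1 ^ (2 * n))
  have k6 : -β ∈ D.act (h.1 ^ (2 * n)) x0.1 := (v2.tot β hβR).resolve_left k5
  refine ⟨?_, hne⟩
  -- the form
  have hB1 : 1 ≤ |D.B α β| := by
    by_contra hlt
    rw [not_le] at hlt
    obtain ⟨k, hk, hk2⟩ := hFINO D α hαR β hβR hlt
    have h1 : D.rf α * D.rf β ∈ H := by
      rw [hβ, rfact α hαR]
      have h2 : D.rf α * (h.1 ^ n * D.rf α * (h.1 ^ n)⁻¹)
          = (D.rf α * h.1 ^ n * (D.rf α)⁻¹) * (D.rf α * D.rf α) * (h.1 ^ n)⁻¹ := by group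
      rw [h2]
      have h3 : D.rf α * D.rf α = 1 := (hBAS D).2.2.2.2.2.2.2.2.2.2.1 α hαR
      rw [h3, mul_one]
      exact H.mul_mem (hH.nor.conj_mem _ (H.pow_mem h.2 n) _) (H.inv_mem (H.pow_mem h.2 n))
    have h4 := hH.tf _ h1 k hk hk2
    have h5 : D.rf α = D.rf β := by
      have h6 : D.rf β * D.rf β = 1 := (hBAS D).2.2.2.2.2.2.2.2.2.2.1 β hβR
      calc D.rf α = D.rf α * (D.rf β * D.rf β) := by rw [h6, mul_one]
        _ = (D.rf α * D.rf β) * D.rf β := by group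
        _ = D.rf β := by rw [h4, one_mul]
    rcases rfinj α hαR β hβR h5 with h6 | h6
    · exact hne h6
    · exact hH.inv _ (H.pow_mem h.2 n) α hαR h6
  rcases le_abs.1 hB1 with h1 | h1
  · rcases (hNST D α hαR β hβR).2.1 h1 with h2 | h2
    · exact h2
    · exact (k2 (up _ v1 β k3 α hαR h2)).elim
  · have h2 : 1 ≤ D.B α (-β) := by
      have h3 := Blin (-1) 0 β β α
      rw [Bsymm α (-β)]
      have h4 : (-1 : ℝ) • β + (0 : ℝ) • β = -β := by simp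
      rw [h4] at h3
      rw [h3, Bsymm β α]
      linarith
    rcases (hNST D α hαR (-β) (Rtneg β hβR)).2.1 h2 with h3 | h3
    · have h4 : -β ∈ x0.1 := up _ x0.2 α hα1 (-β) (Rtneg β hβR) h3
      exact (noneg _ x0.2 β k1 h4).elim
    · exact (k4 (up _ v2 (-β) k6 α hαR h3)).elim

end Pool.CS
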