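import Pool.Agent.Work.MP_64ea0f_cs.InterfaceG4
import Pool.Agent.Work.MP_64ea0f_cs_helper90.GAM

set_option autoImplicit false

/-! # GAMY: centralisers of essential elements, general case (helper18, adapted from GAM of helper90) -/

namespace Pool.CS

open GAMx in
theorem GAMY_thm (hAX : Stmt_AX) (hF3 : Stmt_F3Y) (hLBF : Stmt_LBF) (hLSX : Stmt_LSX)
    (hDEV : Stmt_DEV) : Stmt_GAMY := by
  intro D H hD J h hH hE
  have hfin : Finite (D.Lb H) := hLBF D H hD.fin
  obtain ⟨⟨L, hL⟩, -⟩ := hLSX D H hD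
  obtain ⟨b, κ, c, hDev, hinj⟩ := hDEV D H hD L hL
  have huniv : ∀ g : RC (D.lg H), g ∈ rsub (D.lg H) Set.univ := by
    intro g
    induction g using rac_induction with
    | h1 => exact one_mem _
    | h2 s g ih => exact mul_mem (Subgroup.subset_closure ⟨s, Set.mem_univ _, rfl⟩) ih
  obtain ⟨a, -, w, -, hg2, hAx1, L', hL', χ, hχ⟩ :=
    hAX (D.Lb H) (D.lg H) Set.univ (c ⟨h, hH⟩) (huniv _)
  let φ : H →* RC (D.lg H) := (MulAut.conj a⁻¹).toMonoidHom.comp c
  have hφ : ∀ g, φ g = a⁻¹ * c g * a := by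
    intro g
    simp [φ]
  have hHf : H.FiniteIndex := hD.fin
  have hcf : (L'.comap φ).FiniteIndex := by
    constructor
    rw [Subgroup.index_comap]
    have : L'.IsFiniteRelIndex φ.range := Subgroup.isFiniteRelIndex_of_finiteIndex
    exact this.relIndex_ne_zero
  let inc : (L'.comap φ) →* D.W := H.subtype.comp (L'.comap φ).subtype
  have hincinj : Function.Injective inc := by
    intro x y hxy
    exact Subtype.ext (Subtype.ext hxy)
  have hrange : inc.range.FiniteIndex := by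
    have h1 : inc.range = (L'.comap φ).map H.subtype := by
      ext x
      constructor
      · rintro ⟨g, rfl⟩
        exact ⟨g.1, g.2, rfl⟩
      · rintro ⟨g, hg, rfl⟩
        exact ⟨⟨g, hg⟩, rfl⟩
    rw [h1]
    constructor
    rw [Subgroup.index_map_subtype]
    exact mul_ne_zero hcf.index_ne_zero hHf.index_ne_zero
  refine core inc hincinj hrange (D.par J ⊓ Subgroup.centralizer {h})
    (χ.comp (φ.subgroupComap L')) ?_
  intro g hg hθ
  have h2 : g.1.1 * h = h * g.1.1 := by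
    have h3 : inc g ∈ Subgroup.centralizer {h} := hg.2
    rw [Subgroup.mem_centralizer_singleton_iff] at h3
    exact h3
  have h4 : c g.1 * c ⟨h, hH⟩ = c ⟨h, hH⟩ * c g.1 := by
    rw [← map_mul, ← map_mul]
    congr 1
    exact Subtype.ext h2
  have h5 : wp (D.lg H) w = a⁻¹ * (c ⟨h, hH⟩) ^ 2 * a := by
    rw [hg2]; group
  have h6 : φ g.1 * wp (D.lg H) w = wp (D.lg H) w * φ g.1 := by
    rw [hφ, h5]
    have h7 : c g.1 * (c ⟨h, hH⟩) ^ 2 = (c ⟨h, hH⟩) ^ 2 * c g.1 := by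
      have h8 : Commute (c g.1) (c ⟨h, hH⟩) := h4
      exact (h8.pow_right 2)
    calc a⁻¹ * c g.1 * a * (a⁻¹ * (c ⟨h, hH⟩) ^ 2 * a)
        = a⁻¹ * (c g.1 * (c ⟨h, hH⟩) ^ 2) * a := by group
      _ = a⁻¹ * ((c ⟨h, hH⟩) ^ 2 * c g.1) * a := by rw [h7]
      _ = a⁻¹ * (c ⟨h, hH⟩) ^ 2 * a * (a⁻¹ * c g.1 * a) := by group
  have h9 := hχ ⟨φ g.1, g.2⟩ h6 hθ
  have h10 : g.1 = 1 := by
    refine hF3 D H hD L hL b κ c hDev hinj J ⟨h, hH⟩ a w hE ?_ hAx1 g.1 hg.1 ?_
    · rw [map_pow]; exact hg2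
    · rw [← hφ]; exact h9
  exact Subtype.ext h10

end Pool.CS
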